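import Pool.Agent.Run7.h432.LV.Stm

/-!
# Project LV, pieces CH and ZC: Cayley-Hamilton
-/

set_option autoImplicit false

namespace Run7.h432.LV

universe u

namespace Ch

/-- the point `x` with `x (a i)` replaced by `s ^ (k i) * x (a i)` -/
noncomputable def P {U : Type u} [Ring U] {ι : Type} {m : ℕ} (a : Fin m → ι) (s : U) (x : ι → U)
    (k : Fin m →₀ ℕ) : ι → U :=
  Function.extend a (fun i => s ^ (k i) * x (a i)) x

variable {U : Type u} [Ring U] {ι : Type} [DecidableEq ι] {m : ℕ} {a : Fin m → ι}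

omit [DecidableEq ι] in
lemma P_apply (ha : Function.Injective a) (s : U) (x : ι → U) (k : Fin m →₀ ℕ) (i : Fin m) :
    P a s x k (a i) = s ^ (k i) * x (a i) := ha.extend_apply _ _ _

omit [DecidableEq ι] in
lemma P_apply' (s : U) (x : ι → U) (k : Fin m →₀ ℕ) (z : ι) (hz : ∀ i, a i ≠ z) :
    P a s x k z = x z :=
  Function.extend_apply' _ _ _ (fun ⟨i, hi⟩ => hz i hi)

lemma P_add (ha : Function.Injective a) (s : U) (x : ι → U) (k : Fin m →₀ ℕ) (i : Fin m) (j : ℕ) :
    P a s x (k + Finsupp.single i j) =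
      Function.update (P a s x k) (a i) (s ^ j * P a s x k (a i)) := by
  funext z
  by_cases hz : ∃ l, a l = z
  · obtain ⟨l, rfl⟩ := hz
    by_cases hl : l = i
    · subst hl
      rw [Function.update_self, P_apply ha, P_apply ha, Finsupp.add_apply, Finsupp.single_eq_same,
        add_comm, pow_add, mul_assoc]
    · rw [Function.update_of_ne (fun h => hl (ha h)), P_apply ha, P_apply ha, Finsupp.add_apply,
        Finsupp.single_eq_of_ne hl, add_zero]
  · have hz' : ∀ l, a l ≠ z := fun l hl => hz ⟨l, hl⟩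
    rw [Function.update_of_ne (fun h => hz' i h.symm), P_apply' _ _ _ _ hz', P_apply' _ _ _ _ hz']

omit [DecidableEq ι] in
lemma P_zero (ha : Function.Injective a) (s : U) (x : ι → U) : P a s x 0 = x := by
  funext z
  by_cases hz : ∃ l, a l = z
  · obtain ⟨l, rfl⟩ := hz
    rw [P_apply ha]
    simp
  · exact P_apply' _ _ _ _ fun l hl => hz ⟨l, hl⟩

end Ch

open Ch in
theorem t_CH (h : S_TRZ.{u}) (h' : S_PS.{u}) : S_CH.{u} := by
  intro U _ I _ m hInv hCap hPerf ι _ F hF a b ha hb hab hFa hFb s hs x hxa hxb i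
  have hreg : ∀ n : ℕ, 0 < n → n ≤ m → ∀ c : U, n • c = 0 → c = 0 := by
    intro n hn hnm c hc
    rw [nsmul_eq_mul] at hc
    exact (hInv n hn hnm).mul_right_eq_zero.1 hc
  have hpow : ∀ j : ℕ, 0 < j → s ^ j ∈ I := by
    intro j hj
    obtain ⟨j', rfl⟩ : ∃ j', j = j' + 1 := ⟨j - 1, by omega⟩
    rw [pow_succ]
    exact I.mul_mem_left _ hs
  have hps := h' U m hreg (fun k => F (P a s x k)) (by
    intro k j hj
    have h1 := h U I m hInv hCap hPerf ι F hF a b ha hb hab hFa hFb (s ^ j) (hpow j hj)
      (P a s x k)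
      (fun i => by rw [P_apply ha]; exact I.mul_mem_left _ (hxa i))
      (fun i => by rw [P_apply' _ _ _ _ (fun l => hab l i)]; exact hxb i)
    unfold del at h1
    rw [← h1]
    refine Finset.sum_congr rfl fun i _ => ?_
    show F (P a s x (k + Finsupp.single i j)) = _
    rw [P_add ha]) i
  have h2 : P a s x (Finsupp.single i m) = Function.update x (a i) (s ^ m * x (a i)) := by
    have h3 := P_add ha s x 0 i m
    rw [zero_add, P_zero ha] at h3
    exact h3
  rw [← h2]
  exact hps

theorem t_ZC (h : S_STAR.{u}) (h' : S_CH.{u}) : S_ZC.{u} := by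
  intro U _ I _ m hInv hCap hPerf ι _ F hF a b ha hb hab hFa hFb z hza hzb s hs x hxa hxb hxz
  have hne : ∀ i, a i ≠ z := fun i hi => hza ⟨i, hi⟩
  have hneb : ∀ i, b i ≠ z := fun i hi => hzb ⟨i, hi⟩
  rw [h U I m hInv hCap ι F hF a ha hFa z hza (Function.update x z (s ^ m * x z))
    (fun i => by rw [Function.update_of_ne (hne i)]; exact hxa i)
    (by rw [Function.update_self]; exact I.mul_mem_left _ hxz)]
  refine Finset.sum_eq_zero fun i _ => ?_
  have h1 := h' U I m hInv hCap hPerf ι F hF a b ha hb hab hFa hFb s hs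
    (x ∘ Equiv.swap (a i) z)
    (fun j => by
      show x (Equiv.swap (a i) z (a j)) ∈ I
      by_cases hj : j = i
      · subst hj
        rw [Equiv.swap_apply_left]; exact hxz
      · rw [Equiv.swap_apply_of_ne_of_ne (fun h => hj (ha h)) (hne j)]; exact hxa j)
    (fun j => by
      show x (Equiv.swap (a i) z (b j)) ∈ I
      rw [Equiv.swap_apply_of_ne_of_ne (fun h => hab i j h.symm) (hneb j)]; exact hxb j)
    i
  rw [← h1]
  congr 1
  funext w
  show Function.update x z (s ^ m * x z) (Equiv.swap (a i) z w) = _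
  by_cases hw : w = a i
  · subst hw
    rw [Equiv.swap_apply_left, Function.update_self, Function.update_self, Function.comp_apply,
      Equiv.swap_apply_left]
  · rw [Function.update_of_ne hw, Function.comp_apply]
    by_cases hwz : w = z
    · subst hwz
      rw [Equiv.swap_apply_right, Function.update_of_ne (hne i)]
    · rw [Equiv.swap_apply_of_ne_of_ne hw hwz, Function.update_of_ne hwz]

end Run7.h432.LV
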