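import Pool.Agent.Run7.h432.LV.Stm

/-!
# Project LV, piece STAR: the exchange relation
-/

set_option autoImplicit false

namespace Run7.h432.LV

universe u

namespace StarP

open Equiv

variable {U : Type u} [Ring U]

lemma cap_V {I : Ideal U} {n : ℕ} (hCap : Cap I n) {G : (Fin n → U) → U} (hG : G ∈ V U (Fin n)) :
    ∀ y : Fin n → U, (∀ i, y i ∈ I) →
      ∑ σ : Perm (Fin n), (Perm.sign σ : ℤ) • G (y ∘ σ) = 0 := by
  intro y hy
  unfold V at hG
  induction hG using AddSubgroup.closure_induction with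
  | mem G hG =>
    obtain ⟨w, hw, rfl⟩ := hG
    exact hCap w hw y hy
  | zero => simp
  | add G H _ _ h1 h2 =>
    simp only [Pi.add_apply, smul_add, Finset.sum_add_distrib, h1, h2, add_zero]
  | neg G _ h1 =>
    simp only [Pi.neg_apply, smul_neg, Finset.sum_neg_distrib, h1, neg_zero]

variable {ι : Type} [DecidableEq ι] {m : ℕ}

/-- permute the variables of the block `a` by `e` -/
noncomputable def T (a : Fin m → ι) (e : Perm (Fin m)) (x : ι → U) : ι → U :=
  Function.extend a (fun i => x (a (e i))) x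

variable {a : Fin m → ι}

omit [Ring U] [DecidableEq ι] in
lemma T_apply (ha : Function.Injective a) (e : Perm (Fin m)) (x : ι → U) (i : Fin m) :
    T a e x (a i) = x (a (e i)) := ha.extend_apply _ _ _

omit [Ring U] [DecidableEq ι] in
lemma T_apply' (e : Perm (Fin m)) (x : ι → U) {w : ι} (hw : ∀ i, a i ≠ w) :
    T a e x w = x w :=
  Function.extend_apply' _ _ _ (fun ⟨i, hi⟩ => hw i hi)

omit [Ring U] [DecidableEq ι] in
lemma T_one (ha : Function.Injective a) (x : ι → U) : T a 1 x = x := by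
  funext w
  by_cases hw : ∃ i, a i = w
  · obtain ⟨i, rfl⟩ := hw
    rw [T_apply ha]; rfl
  · exact T_apply' _ _ (fun i hi => hw ⟨i, hi⟩)

omit [Ring U] [DecidableEq ι] in
lemma T_mul (ha : Function.Injective a) (e f : Perm (Fin m)) (x : ι → U) :
    T a (e * f) x = T a f (T a e x) := by
  funext w
  by_cases hw : ∃ i, a i = w
  · obtain ⟨i, rfl⟩ := hw
    rw [T_apply ha, T_apply ha, T_apply ha]; rfl
  · have hw' : ∀ i, a i ≠ w := fun i hi => hw ⟨i, hi⟩
    rw [T_apply' _ _ hw', T_apply' _ _ hw', T_apply' _ _ hw']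

omit [Ring U] in
lemma T_swap (ha : Function.Injective a) (i k : Fin m) (x : ι → U) :
    T a (swap i k) x = x ∘ swap (a i) (a k) := by
  funext w
  by_cases hw : ∃ i, a i = w
  · obtain ⟨l, rfl⟩ := hw
    rw [T_apply ha, Function.comp_apply, ha.swap_apply]
  · have hw' : ∀ i, a i ≠ w := fun i hi => hw ⟨i, hi⟩
    rw [T_apply' _ _ hw', Function.comp_apply,
      swap_apply_of_ne_of_ne (fun h => hw' i h.symm) (fun h => hw' k h.symm)]

lemma F_T (ha : Function.Injective a) {F : (ι → U) → U} (hFa : AltB F a) (e : Perm (Fin m)) :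
    ∀ x, F (T a e x) = (Perm.sign e : ℤ) • F x := by
  refine Equiv.Perm.swap_induction_on e ?_ ?_
  · intro x
    rw [T_one ha]
    simp
  · intro f i k hik ih x
    rw [T_mul ha, ih, T_swap ha, hFa i k hik, Perm.sign_mul, Perm.sign_swap hik]
    simp

lemma fact_unit (hInv : Inv U m) : ∀ k : ℕ, k ≤ m → IsUnit ((k.factorial : ℕ) : U) := by
  intro k
  induction k with
  | zero => intro _; simp
  | succ k ih =>
    intro hk
    rw [Nat.factorial_succ, Nat.cast_mul]
    exact (hInv (k + 1) (Nat.succ_pos k) hk).mul (ih (by omega))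

end StarP

open StarP Equiv in
theorem t_STAR (hVE : S_VE.{u}) : S_STAR.{u} := by
  intro U _ I _ m hInv hCap ι _ F hF a ha hFa z hz x hxa hxz
  set j : Fin (m + 1) → ι := Fin.cons (α := fun _ => ι) z a with hj
  have hj0 : j 0 = z := rfl
  have hjs : ∀ i : Fin m, j i.succ = a i := fun i => rfl
  have hjinj : Function.Injective j := Fin.cons_injective_iff.2 ⟨hz, ha⟩
  have hG := hVE U ι (Fin (m + 1)) F hF j hjinj x
  have hy : ∀ i, (x ∘ j) i ∈ I := by
    intro i
    refine Fin.cases ?_ (fun i => ?_) i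
    · exact hxz
    · exact hxa i
  have h1 := cap_V hCap hG (x ∘ j) hy
  rw [← Equiv.sum_comp (Perm.decomposeFin (n := m)).symm, Fintype.sum_prod_type] at h1
  have hE : ∀ (p : Fin (m + 1)) (e : Perm (Fin m)),
      Function.extend j ((x ∘ j) ∘ (Perm.decomposeFin.symm (p, e) : Perm (Fin (m + 1)))) x =
        T a e (x ∘ swap z (j p)) := by
    intro p e
    funext w
    by_cases hw : ∃ l, j l = w
    · obtain ⟨l, rfl⟩ := hw
      rw [hjinj.extend_apply]
      refine Fin.cases ?_ (fun i => ?_) l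
      · have h2 : ∀ i, a i ≠ j 0 := fun i hi => hz ⟨i, hi⟩
        rw [T_apply' _ _ h2]
        show x (j (Perm.decomposeFin.symm (p, e) 0)) = x (swap z (j p) (j 0))
        rw [Perm.decomposeFin_symm_apply_zero, hj0, swap_apply_left]
      · rw [hjs, T_apply ha]
        show x (j (Perm.decomposeFin.symm (p, e) i.succ)) = x (swap z (j p) (a (e i)))
        rw [Perm.decomposeFin_symm_apply_succ, ← hjinj.swap_apply, hj0, hjs]
    · have hw' : ∀ i, a i ≠ w := fun i hi => hw ⟨i.succ, hi⟩
      rw [Function.extend_apply' _ _ _ hw, T_apply' _ _ hw', Function.comp_apply,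
        swap_apply_of_ne_of_ne (show w ≠ z from fun h => hw ⟨0, h.symm⟩)
          (show w ≠ j p from fun h => hw ⟨p, h.symm⟩)]
  have h2 : ∀ (p : Fin (m + 1)) (e : Perm (Fin m)),
      (Perm.sign (Perm.decomposeFin.symm (p, e)) : ℤ) •
        F (Function.extend j ((x ∘ j) ∘ (Perm.decomposeFin.symm (p, e) : Perm (Fin (m + 1)))) x) =
      (if p = 0 then (1 : ℤ) else -1) • F (x ∘ swap z (j p)) := by
    intro p e
    rw [hE, F_T ha hFa, smul_smul, Perm.decomposeFin.symm_sign]
    congr 1
    push_cast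
    rw [mul_assoc, ← Units.val_mul, Int.units_mul_self]
    split_ifs <;> simp
  have h3 : ∑ p : Fin (m + 1), ∑ e : Perm (Fin m),
      (if p = 0 then (1 : ℤ) else -1) • F (x ∘ swap z (j p)) = 0 := by
    rw [← h1]
    exact Finset.sum_congr rfl fun p _ => Finset.sum_congr rfl fun e _ => (h2 p e).symm
  simp only [Finset.sum_const, Finset.card_univ, Fintype.card_perm, Fintype.card_fin] at h3
  rw [← Finset.smul_sum, nsmul_eq_mul] at h3
  have h4 := (fact_unit hInv m le_rfl).mul_right_eq_zero.1 h3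
  rw [Fin.sum_univ_succ, if_pos rfl, one_smul, hj0, swap_self] at h4
  have h5 : ∀ i : Fin m, (if i.succ = 0 then (1 : ℤ) else -1) • F (x ∘ swap z (j i.succ)) =
      - F (x ∘ swap (a i) z) := by
    intro i
    rw [if_neg (Fin.succ_ne_zero i), hjs, swap_comm, neg_one_smul]
  rw [Finset.sum_congr rfl fun i _ => h5 i, Finset.sum_neg_distrib, ← sub_eq_add_neg] at h4
  exact sub_eq_zero.1 h4

end Run7.h432.LV
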